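import Pool.Agent.Helper87.TC.Lib

/-!
Module CURV2: classification of the curves of degree `4 ^ (M + 1) * a` outside the boundary.
-/

set_option autoImplicit false

namespace Pool.Agent.Helper87.TC

open MvPolynomial Pool.Agent.Helper48.VMRT Pool.Agent.Helper87.VM

section Curv2

theorem curv2_Zcone {D : VD} (hD : D.Good) (a : ℂ) (z : Fin D.w → ℂ) (hz : z ∈ D.Z) :
    a • z ∈ D.Z := by
  obtain ⟨i, hi⟩ := Set.mem_iUnion.1 hz
  exact Set.mem_iUnion.2 ⟨i, hD.Zcone i a z hi⟩

theorem curv2_ev_smul {κ μ : Type} {E : μ → MvPolynomial κ ℂ} {m : ℕ} (h : ∀ i, HomE m (E i))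
    (a : ℂ) (x : κ → ℂ) : ev E (a • x) = a ^ m • ev E x := funext fun i => h i a x

theorem curv2_zero_mem {D : VD} {M : ℕ} {g : D.G} {N : ℕ}
    {E : Fin (N + 1) → MvPolynomial (Option (Fin D.w) × D.ν) ℂ} {X DX : Set (Fin (N + 1) → ℂ)}
    {ε : ℂ} (h : TR D M g N E X DX ε) : (0 : Fin (N + 1) → ℂ) ∈ DX := by
  have h1 : (0 : Option (Fin D.w) × D.ν → ℂ) ∈ FX D (g ^ (2 ^ M)) := by
    left
    exact map_zero _
  have h2 := h.res.on 0 h1
  have h3 : ev E (0 : Option (Fin D.w) × D.ν → ℂ) = 0 := by
    have h4 := curv2_ev_smul h.res.hom 0 (0 : Option (Fin D.w) × D.ν → ℂ)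
    have h5 : (4 : ℕ) ^ (M + 1) ≠ 0 := pow_ne_zero _ (by norm_num)
    rw [zero_smul, zero_pow h5, zero_smul] at h4
    exact h4
  rwa [h3] at h2

theorem st_CURV2 (h1 : Pool.Agent.Helper87.VM.ST_YC) (_h2 : Pool.Agent.Helper87.VM.ST_FAC1) :
    ST_CURV2 := by
  intro D M g N E X DX ε hT
  have hD : D.Good := hT.td.good
  have h0DX := curv2_zero_mem hT
  -- the divisor at infinity
  obtain ⟨S', hS'cl, hS'cone, hS'X, -, hS'⟩ := hT.res.sets
    {y | y ∈ D.Y ∧ ∀ j, y (none, j) = 0}
    (by
      have e : {y | y ∈ D.Y ∧ ∀ j, y (none, j) = 0} =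
          D.Y ∩ {y : Option (Fin D.w) × D.ν → ℂ | ∀ p ∈ Set.range
            (fun j : D.ν => (MvPolynomial.X (none, j) :
              MvPolynomial (Option (Fin D.w) × D.ν) ℂ)),
              eval y p = 0} := by
        ext y
        simp only [Set.mem_inter_iff, Set.mem_ofPred_eq, Set.forall_mem_range, eval_X]
      rw [e]
      exact zclosed_inter hD.Ypm.closed (zclosed_eqs _))
    (fun a y hy => ⟨hD.Ypm.cone a y hy.1, fun j => by
      rw [Pi.smul_apply, hy.2 j, smul_zero]⟩)
    (fun y hy => hy.1)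
    (fun y hy => by
      refine ⟨hD.Yact g y hy.1, ?_⟩
      obtain ⟨x, η, hxη, -⟩ := hy.1
      have hy2 := hy.2
      rw [hxη] at hy2 ⊢
      intro j
      rw [VD.ρY, tens_seg, seg_apply, oext_none]
      by_cases hx : x none = 0
      · rw [hx, zero_mul]
      · have hη : η = 0 := by
          funext j
          have := hy2 j
          rw [seg_apply] at this
          exact (mul_eq_zero.1 this).resolve_left hx
        rw [hη, map_zero]
        simp)
  have hL : ∀ y ∈ D.Y, y ∉ FX D (g ^ (2 ^ M)) →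
      (ev E y ∈ S' ∪ {0} ↔ ∀ j, y (none, j) = 0) := by
    intro y hy hyF
    have hne : ev E y ≠ 0 := by
      intro h0
      exact hT.res.off y hy hyF (h0 ▸ h0DX)
    rw [Set.mem_union, Set.mem_singleton_iff, or_iff_left hne, hS' y hy hyF]
    exact ⟨fun h => h.2, fun h => ⟨hy, h⟩⟩
  refine ⟨S' ∪ {0}, ?_, ?_, ⟨0, Or.inr rfl⟩, hL, ?_⟩
  · refine zclosed_union hS'cl ?_
    have h := zclosed_submodule (⊥ : Submodule ℂ (Fin (N + 1) → ℂ))
    rwa [Submodule.bot_coe] at h
  · rintro a x (hx | hx)
    · exact Or.inl (hS'cone a x hx)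
    · right
      rw [Set.mem_singleton_iff] at hx ⊢
      rw [hx, smul_zero]
  · intro c hcX hcD hcL
    have hK : (4 : ℕ) ^ (M + 1) ≠ 0 := pow_ne_zero _ (by norm_num)
    have ha2 : 2 ≤ D.a := hD.fd.two_le
    have hMor : Mor (4 ^ (M + 1) * D.a) (cpol c) :=
      ⟨cpol_natDegree c, fun s t hst => by
        rw [hevv_cpol]
        intro h0
        exact hcD s t hst (h0 ▸ h0DX)⟩
    obtain ⟨e', y, he', hy, hyY, hyF, hyE⟩ := hT.res.lift _ (cpol c) hMor
      (fun s t => by rw [hevv_cpol]; exact hcX s t)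
      (fun s t hst => by rw [hevv_cpol]; exact hcD s t hst)
    have he : e' = D.a := (Nat.eq_of_mul_eq_mul_left (Nat.pos_of_ne_zero hK) he').symm
    subst he
    obtain ⟨s₀, t₀, hst₀⟩ := hcL
    have hne0 : (s₀, t₀) ≠ (0, 0) := by
      intro h0
      have hs : s₀ = 0 := congrArg Prod.fst h0
      have ht : t₀ = 0 := congrArg Prod.snd h0
      apply hst₀
      right
      rw [Set.mem_singleton_iff, ← hevv_cpol, hyE, hs, ht]
      have h0' : hevv D.a y 0 0 = 0 := by
        funext i
        have h3 := hev_smul_smul D.a (y i) 0 0 0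
        rw [zero_mul, zero_pow (by omega), zero_mul] at h3
        exact h3
      rw [h0']
      have h4 := curv2_ev_smul hT.res.hom 0 (0 : Option (Fin D.w) × D.ν → ℂ)
      rw [zero_smul, zero_pow hK, zero_smul] at h4
      exact h4
    have hex : ∃ (s t : ℂ) (j : D.ν), hevv D.a y s t (none, j) ≠ 0 := by
      refine ⟨s₀, t₀, ?_⟩
      by_contra hcon
      push Not at hcon
      apply hst₀
      rw [← hevv_cpol, hyE]
      exact (hL _ (hyY s₀ t₀) (hyF s₀ t₀ hne0)).2 hcon
    rcases h1 D hD D.a y le_rfl hy hyY hex with h0 | ⟨-, p, q, c', hc', hind, hne, hmem, hgr⟩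
    · omega
    · obtain ⟨lam, hlam⟩ := IsAlgClosed.exists_pow_nat_eq (c'⁻¹) (n := D.a) (by omega)
      have hlam0 : lam ≠ 0 := by
        rintro rfl
        rw [zero_pow (by omega)] at hlam
        exact inv_ne_zero hc' hlam.symm
      have hgr' : ∀ s t : ℂ, D.gr (s • (lam • p) + t • (lam • q)) =
          (s * (lam • p) none + t * (lam • q) none) • hevv D.a y s t := by
        intro s t
        have e1 : s • (lam • p) + t • (lam • q) = lam • (s • p + t • q) := by
          rw [smul_add, smul_comm s lam, smul_comm t lam]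
        rw [e1, VD.gr_smul D hD.fd.hom, hgr, smul_smul, pow_succ, hlam]
        congr 1
        simp only [Pi.smul_apply, smul_eq_mul]
        field_simp
      refine ⟨lam • p, lam • q, ⟨?_, ?_, ?_⟩, ?_, hcD⟩
      · have h3 : ![lam • p, lam • q] = fun i => lam • (![p, q] i) := by
          funext i
          fin_cases i <;> rfl
        rw [h3]
        exact hind.units_smul (fun _ => Units.mk0 lam hlam0)
      · rcases hne with h | h
        · left
          rw [Pi.smul_apply, smul_eq_mul]
          exact mul_ne_zero hlam0 h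
        · right
          rw [Pi.smul_apply, smul_eq_mul]
          exact mul_ne_zero hlam0 h
      · have h3 := curv2_Zcone hD (lam * lam) _ hmem
        have h4 : (fun i => (lam • q) none * (lam • p) (some i) -
            (lam • p) none * (lam • q) (some i)) =
            (lam * lam) • (fun i => q none * p (some i) - p none * q (some i)) := by
          funext i
          simp only [Pi.smul_apply, smul_eq_mul]
          ring
        rw [h4]
        exact h3
      · intro s t
        rw [hgr' s t, curv2_ev_smul hT.res.hom, ← hyE, hevv_cpol]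

end Curv2

end Pool.Agent.Helper87.TC
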