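import Pool.Agent.Helper87.TC.Lib
import Pool.Agent.Helper48.VM.PAR

/-!
Module PAR0: polynomial parametrization of the proper transforms of the lines.
-/

set_option autoImplicit false

namespace Pool.Agent.Helper87.TC

open MvPolynomial Pool.Agent.Helper48.VMRT Pool.Agent.Helper87.VM

theorem st_PAR0 : ST_PAR0 := by
  intro D hD
  classical
  choose G hG using fun j => par_G (D.F j) (hD.fd.hom j)
  -- the polynomials
  let S : MvPolynomial (Fin 2 ⊕ (Fin D.w ⊕ (Fin 4 ⊕ Fin D.w))) ℂ :=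
    X (Sum.inl 0) * X (Sum.inr (Sum.inr (Sum.inl 0))) +
      X (Sum.inl 1) * X (Sum.inr (Sum.inr (Sum.inl 1)))
  let R : MvPolynomial (Fin 2 ⊕ (Fin D.w ⊕ (Fin 4 ⊕ Fin D.w))) ℂ :=
    X (Sum.inl 0) * X (Sum.inr (Sum.inr (Sum.inl 2))) +
      X (Sum.inl 1) * X (Sum.inr (Sum.inr (Sum.inl 3)))
  let U : Fin D.w → MvPolynomial (Fin 2 ⊕ (Fin D.w ⊕ (Fin 4 ⊕ Fin D.w))) ℂ := fun i =>
    X (Sum.inr (Sum.inl i))
  let W : Fin D.w → MvPolynomial (Fin 2 ⊕ (Fin D.w ⊕ (Fin 4 ⊕ Fin D.w))) ℂ := fun i =>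
    X (Sum.inr (Sum.inr (Sum.inr i)))
  let h : Fin 2 ⊕ (Fin D.w ⊕ Fin D.w) →
      MvPolynomial (Fin 2 ⊕ (Fin D.w ⊕ (Fin 4 ⊕ Fin D.w))) ℂ :=
    Sum.elim ![S, R] (Sum.elim U W)
  let xo : Option (Fin D.w) →
      MvPolynomial (Fin 2 ⊕ (Fin D.w ⊕ (Fin 4 ⊕ Fin D.w))) ℂ := fun o =>
    Option.rec S (fun i => S * U i + R * W i) o
  let g : Option (Fin D.w) × D.ν →
      MvPolynomial (Fin 2 ⊕ (Fin D.w ⊕ (Fin 4 ⊕ Fin D.w))) ℂ :=
    fun o => xo o.1 * aeval h (G o.2)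
  choose Ψ hΨ using fun i => par_ext (g i) D.a
  refine ⟨fun ij => Ψ ij.1 ij.2, fun u σ z hz s t => ?_⟩
  -- evaluation
  have evS : ∀ s t : ℂ, eval (Sum.elim ![s, t] (Sum.elim u (Sum.elim σ z))) S =
      s * σ 0 + t * σ 1 := by
    intro s t
    simp [S]
  have evR : ∀ s t : ℂ, eval (Sum.elim ![s, t] (Sum.elim u (Sum.elim σ z))) R =
      s * σ 2 + t * σ 3 := by
    intro s t
    simp [R]
  have evh : ∀ s t : ℂ, ev h (Sum.elim ![s, t] (Sum.elim u (Sum.elim σ z))) =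
      Sum.elim ![s * σ 0 + t * σ 1, s * σ 2 + t * σ 3] (Sum.elim u z) := by
    intro s t
    funext o
    rcases o with i | i | i
    · fin_cases i
      · exact evS s t
      · exact evR s t
    · simp [ev, h, U]
    · simp [ev, h, W]
  let xt : ℂ → ℂ → Option (Fin D.w) → ℂ := fun s t => ov (s * σ 0 + t * σ 1)
    ((s * σ 0 + t * σ 1) • u + (s * σ 2 + t * σ 3) • z)
  let Gt : ℂ → ℂ → D.ν → ℂ := fun s t j =>
    eval (Sum.elim ![s * σ 0 + t * σ 1, s * σ 2 + t * σ 3] (Sum.elim u z)) (G j)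
  have evg : ∀ s t : ℂ, ev g (Sum.elim ![s, t] (Sum.elim u (Sum.elim σ z))) =
      seg (xt s t) (Gt s t) := by
    intro s t
    funext o
    rcases o with ⟨o, j⟩
    simp only [ev, g, map_mul, seg]
    rw [eval_aeval, evh]
    congr 1
    cases o with
    | none => exact evS s t
    | some i =>
      simp only [xo, xt, map_add, map_mul, evS, evR, ov_some, Pi.add_apply, Pi.smul_apply,
        smul_eq_mul]
      simp [U, W]
  have hx : ∀ s t : ℂ, s • ov (σ 0) (σ 0 • u + σ 2 • z) + t • ov (σ 1) (σ 1 • u + σ 3 • z) =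
      xt s t := by
    intro s t
    funext o
    cases o with
    | none => simp [xt]
    | some i =>
      simp only [xt, Pi.add_apply, Pi.smul_apply, smul_eq_mul, ov_some]
      ring
  have hF0 : ∀ j, eval (ov 0 z) (D.F j) = 0 :=
    (hD.fd.zero (ov 0 z)).2 ⟨rfl, by simpa using hz⟩
  have hFx : ∀ s t : ℂ, ev D.F (xt s t) = (s * σ 0 + t * σ 1) • Gt s t := by
    intro s t
    funext j
    simp only [ev, xt, Pi.smul_apply, smul_eq_mul, Gt]
    rw [hG, hF0, mul_zero, zero_add]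
  have key : ∀ s t : ℂ, D.gr (xt s t) =
      (s * σ 0 + t * σ 1) • seg (xt s t) (Gt s t) := by
    intro s t
    rw [VD.gr, hFx, seg_smul_right]
  have hQ : ∀ (i : Option (Fin D.w) × D.ν) (s t : ℂ),
      eval (Sum.elim ![s, t] (Sum.elim u (Sum.elim σ z))) (g i) =
      seg (xt s t) (Gt s t) i := by
    intro i s t
    rw [← evg]
    rfl
  rw [hx, key]
  by_cases hσ : σ 0 ≠ 0 ∨ σ 1 ≠ 0
  · congr 1
    funext i
    have hhom : ∀ c s t : ℂ, eval (Sum.elim ![c * s, c * t]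
        (Sum.elim u (Sum.elim σ z))) (g i) = c ^ D.a *
        eval (Sum.elim ![s, t] (Sum.elim u (Sum.elim σ z))) (g i) := by
      refine par_hom (g i) D.a 1 (D.a + 1) _ (σ 0) (σ 1) hσ rfl ?_
      intro c s t
      rw [hQ, hQ, pow_one, pow_one]
      have k1 := congrFun (key (c * s) (c * t)) i
      have k2 := congrFun (key s t) i
      rw [Pi.smul_apply, smul_eq_mul] at k1 k2
      rw [← k1, ← k2]
      have hxc : xt (c * s) (c * t) = c • xt s t := by
        rw [← hx, ← hx, smul_add, smul_smul, smul_smul]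
      rw [hxc, VD.gr_smul D hD.fd.hom, Pi.smul_apply, smul_eq_mul]
    have h2 := hΨ i _ hhom s t
    rw [hQ] at h2
    rw [h2]
    rfl
  · rw [not_or, not_not, not_not] at hσ
    rw [hσ.1, hσ.2, mul_zero, mul_zero, add_zero, zero_smul, zero_smul]

end Pool.Agent.Helper87.TC
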