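import Pool.Agent.Helper87.TC.Lib

/-!
Module UPB: upper bound for the tangent spaces of the resolved quotient at the boundary `b = 0`.
-/

set_option autoImplicit false

namespace Pool.Agent.Helper87.TC

open MvPolynomial Pool.Agent.Helper48.VMRT Pool.Agent.Helper87.VM

section Upb

theorem upb_line {κ : Type} [Fintype κ] (f : MvPolynomial κ ℂ) (x v : κ → ℂ) :
    HasDerivAt (fun τ : ℂ => eval (x + τ • v) f) (dpol f x v) 0 := by
  have h := hasDerivAt_eval f (γ := fun τ : ℂ => x + τ • v) (γ' := v) (τ := 0)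
    (fun i => hasDerivAt_line x v 0 i)
  simpa using h

/-- Two polynomials which agree along two lines have the same directional derivative. -/
theorem upb_dpol_eq {κ κ' : Type} [Fintype κ] [Fintype κ'] (f : MvPolynomial κ ℂ)
    (g : MvPolynomial κ' ℂ) (x v : κ → ℂ) (x' v' : κ' → ℂ)
    (h : ∀ τ : ℂ, eval (x + τ • v) f = eval (x' + τ • v') g) : dpol f x v = dpol g x' v' := by
  refine (upb_line f x v).unique ?_
  refine (upb_line g x' v').congr_of_eventuallyEq (Filter.Eventually.of_forall fun τ => ?_)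
  exact h τ

theorem upb_dpol_zero {κ : Type} [Fintype κ] (f : MvPolynomial κ ℂ) (x v : κ → ℂ)
    (h : ∀ τ : ℂ, eval (x + τ • v) f = 0) : dpol f x v = 0 := by
  refine (upb_line f x v).unique ?_
  refine (hasDerivAt_const (0 : ℂ) (0 : ℂ)).congr_of_eventuallyEq
    (Filter.Eventually.of_forall fun τ => ?_)
  exact h τ

theorem upb_rank {W U : Type} [AddCommGroup W] [Module ℂ W] [AddCommGroup U] [Module ℂ U]
    [FiniteDimensional ℂ W] (K : Submodule ℂ W) (A : W →ₗ[ℂ] U) :
    Module.finrank ℂ (K.map A) + Module.finrank ℂ (K ⊓ LinearMap.ker A : Submodule ℂ W) =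
      Module.finrank ℂ K := by
  have h1 := LinearMap.finrank_range_add_finrank_ker (A.domRestrict K)
  have h2 : LinearMap.range (A.domRestrict K) = K.map A := by
    ext y
    simp only [LinearMap.mem_range, Submodule.mem_map, Subtype.exists, LinearMap.domRestrict_apply]
    constructor
    · rintro ⟨x, hx, rfl⟩; exact ⟨x, hx, rfl⟩
    · rintro ⟨x, hx, rfl⟩; exact ⟨x, hx, rfl⟩
  have h3 : (LinearMap.ker (A.domRestrict K)).map K.subtype = K ⊓ LinearMap.ker A := by
    ext y
    simp only [LinearMap.mem_ker, Submodule.mem_map, Subtype.exists, LinearMap.domRestrict_apply,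
      Submodule.mem_inf, Submodule.subtype_apply]
    constructor
    · rintro ⟨x, hx, h, rfl⟩; exact ⟨hx, h⟩
    · rintro ⟨hx, h⟩; exact ⟨y, hx, h, rfl⟩
  have h4 := Submodule.finrank_map_subtype_eq K (LinearMap.ker (A.domRestrict K))
  rw [h2] at h1
  rw [h3] at h4
  rw [h4]
  exact h1

variable {κα κβ : Type} [Fintype κα] [Fintype κβ]

/-- The differential of `Theta` at `(p, q, b, c)` as a linear map. -/
noncomputable def upb_L (p : κα → ℂ) (q : κβ → ℂ) (b c : ℂ) :
    (((κα → ℂ) × (κβ → ℂ)) × (ℂ × ℂ)) →ₗ[ℂ] (KK κα κβ → ℂ) where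
  toFun x := DTh p q b c x.1.1 x.1.2 x.2.1 x.2.2
  map_add' x y := by
    funext i
    rcases i with i | i
    · simp only [DTh, Sum.elim_inl, Pi.add_apply, Prod.fst_add, Prod.snd_add]; ring
    · simp only [DTh, Sum.elim_inr, Pi.add_apply, Prod.fst_add, Prod.snd_add]; ring
  map_smul' a x := by
    funext i
    rcases i with i | i
    · simp only [DTh, Sum.elim_inl, Pi.smul_apply, Prod.smul_fst, Prod.smul_snd, smul_eq_mul,
        RingHom.id_apply]; ring
    · simp only [DTh, Sum.elim_inr, Pi.smul_apply, Prod.smul_fst, Prod.smul_snd, smul_eq_mul,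
        RingHom.id_apply]; ring

/-- The left-hand side of the equation (E) as a linear form. -/
noncomputable def upb_E (ε : ℕ) (f : MvPolynomial (κα ⊕ κβ) ℂ) (p : κα → ℂ) (q : κβ → ℂ)
    (c : ℂ) : (((κα → ℂ) × (κβ → ℂ)) × (ℂ × ℂ)) →ₗ[ℂ] ℂ where
  toFun x := c * dpol (bcomp ε f) (Sum.elim p q) (Sum.elim x.1.1 x.1.2) +
    eval (Sum.elim p q) (bcomp (2 + ε) f) * x.2.1
  map_add' x y := by
    have h : Sum.elim (x + y).1.1 (x + y).1.2 = Sum.elim x.1.1 x.1.2 + Sum.elim y.1.1 y.1.2 := by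
      funext i
      cases i <;> rfl
    rw [h, dpol_add_right, Prod.snd_add, Prod.fst_add]
    ring
  map_smul' a x := by
    have h : Sum.elim (a • x).1.1 (a • x).1.2 = a • Sum.elim x.1.1 x.1.2 := by
      funext i
      cases i <;> rfl
    rw [h, dpol_smul_right, Prod.smul_snd, Prod.smul_fst, smul_eq_mul, smul_eq_mul,
      RingHom.id_apply]
    ring

omit [Fintype κα] [Fintype κβ] in
theorem upb_elim_line (p p' : κα → ℂ) (q q' : κβ → ℂ) (τ : ℂ) :
    Sum.elim p q + τ • Sum.elim p' q' = Sum.elim (p + τ • p') (q + τ • q') := by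
  funext i
  cases i <;> rfl

/-- The derivative of the sum of `ST_FQ`. -/
theorem upb_deriv (T : ℕ) (g : ℕ → MvPolynomial (κα ⊕ κβ) ℂ) (p p' : κα → ℂ) (q q' : κβ → ℂ)
    (b' c c' : ℂ) (h0 : eval (Sum.elim p q) (g 0) = 0) :
    HasDerivAt (fun τ : ℂ => ∑ k ∈ Finset.range (T + 1 + 1),
      eval (Sum.elim (p + τ • p') (q + τ • q')) (g k) * (c + τ * c') ^ (T + 1 - k) *
        (0 + τ * b') ^ k)
      (c ^ T * (c * dpol (g 0) (Sum.elim p q) (Sum.elim p' q') +
        eval (Sum.elim p q) (g 1) * b')) 0 := by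
  have hg : ∀ k, HasDerivAt (fun τ : ℂ => eval (Sum.elim (p + τ • p') (q + τ • q')) (g k))
      (dpol (g k) (Sum.elim p q) (Sum.elim p' q')) 0 := by
    intro k
    refine (upb_line (g k) (Sum.elim p q) (Sum.elim p' q')).congr_of_eventuallyEq
      (Filter.Eventually.of_forall fun τ => ?_)
    simp only
    rw [upb_elim_line]
  have hc : HasDerivAt (fun τ : ℂ => c + τ * c') c' 0 := by
    have h := ((hasDerivAt_id (0 : ℂ)).mul_const c').const_add c
    simpa using h
  have hb : HasDerivAt (fun τ : ℂ => 0 + τ * b') b' 0 := by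
    have h := ((hasDerivAt_id (0 : ℂ)).mul_const b').const_add 0
    simpa using h
  have hterm : ∀ k ∈ Finset.range (T + 1 + 1), HasDerivAt (fun τ : ℂ =>
      eval (Sum.elim (p + τ • p') (q + τ • q')) (g k) * (c + τ * c') ^ (T + 1 - k) *
        (0 + τ * b') ^ k)
      (if k = 0 then c ^ (T + 1) * dpol (g 0) (Sum.elim p q) (Sum.elim p' q')
        else if k = 1 then c ^ T * (eval (Sum.elim p q) (g 1) * b') else 0) 0 := by
    intro k _
    have h := ((hg k).mul (hc.pow (T + 1 - k))).mul (hb.pow k)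
    refine h.congr_deriv ?_
    simp only [Pi.mul_apply, Pi.pow_apply, zero_smul, add_zero, zero_mul]
    rcases k with _ | k
    · simp [h0]
      ring
    · rcases k with _ | k
      · simp
        ring
      · simp
  have hs := HasDerivAt.fun_sum hterm
  refine hs.congr_deriv ?_
  rw [Finset.sum_range_succ', Finset.sum_range_succ']
  simp
  ring

theorem st_UPB (h1 : ST_CHART) (h2 : ST_FQ) (h3 : ST_BC) (h4 : ST_PURE) (h5 : ST_TPM) :
    ST_UPB := by
  intro κα κβ _ _ n Y hPM hA w hw hw0 hwr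
  obtain ⟨hc1, -, hc3⟩ := h1 κα κβ Y w hw
  -- the chart
  have hchart : ∃ (i₀ : κα) (l₀ : κβ), w (Sum.inl (fun _ => i₀, l₀)) ≠ 0 := by
    rcases hc1 hw0 with h | ⟨i₀, l₀, h⟩
    · exact h
    · exact absurd (hwr _) h
  obtain ⟨i₀, l₀, hil⟩ := hchart
  obtain ⟨p, q, b, c, hp0, hq0, hc, hwT, htan⟩ := hc3 i₀ l₀ hil
  have hb : b = 0 := by
    have h := hwr (i₀, fun _ => l₀)
    rw [hwT] at h
    simpa [Theta, hp0, hq0] using h
  subst hb
  -- the polynomials on the quotient
  have hG : ∀ d ε f, f ∈ vanishingIdeal ℂ Y → Pure d ε f → ∃ G : MvPolynomial (KK κα κβ) ℂ,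
      G ∈ vanishingIdeal ℂ (Cl (ev Psi '' Y)) ∧ ∀ (p : κα → ℂ) (q : κβ → ℂ) (b c : ℂ),
        eval (Theta p q b c) G = p i₀ ^ (3 * (d + 1) - d + ε) * q l₀ ^ ((d + 1) - ε) *
          ∑ k ∈ Finset.range (d + 1 + 1),
            eval (Sum.elim p q) (bcomp (2 * k + ε) f) * c ^ ((d + 1) - k) * b ^ k := by
    intro d ε f hf hP
    obtain ⟨G, hG⟩ := h2 κα κβ d ε f hP (d + 1) le_rfl i₀ l₀
    refine ⟨G, ?_, hG⟩
    rw [vI_Cl, mem_vI]
    rintro x ⟨y, hy, rfl⟩
    rw [ev_Psi, hG]
    have hB := (h3 κα κβ d ε f hP (d + 1) (by omega)).2.1 (pl y) (qr y)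
    simp only [one_pow, mul_one]
    rw [← hB, elim_pl_qr, mem_vI.1 hf y hy, mul_zero]
  -- Claim A
  have hA0 : ∀ d ε f, f ∈ vanishingIdeal ℂ Y → Pure d ε f →
      eval (Sum.elim p q) (bcomp ε f) = 0 := by
    intro d ε f hf hP
    obtain ⟨G, hG1, hG2⟩ := hG d ε f hf hP
    have h := mem_vI.1 hG1 w hw
    rw [hwT, hG2, hp0, hq0, one_pow, one_pow, one_mul, one_mul, Finset.sum_range_succ'] at h
    have h' : ∀ k ∈ Finset.range (d + 1), eval (Sum.elim p q) (bcomp (2 * (k + 1) + ε) f) *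
        c ^ ((d + 1) - (k + 1)) * (0 : ℂ) ^ (k + 1) = 0 := by
      intro k _
      simp
    rw [Finset.sum_eq_zero h', zero_add, pow_zero, mul_one, Nat.sub_zero, mul_zero,
      zero_add] at h
    exact (mul_eq_zero.1 h).resolve_right (pow_ne_zero _ hc)
  -- homogeneity
  have hhom : ∀ d ε f, Pure d ε f → ∀ (j : ℕ) (x y : ℂ) (p : κα → ℂ) (q : κβ → ℂ),
      eval (Sum.elim (x • p) (y • q)) (bcomp j f) =
        x ^ (d - j) * y ^ j * eval (Sum.elim p q) (bcomp j f) := by
    intro d ε f hP j x y p q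
    obtain ⟨g1, -, g3, -, -⟩ := h3 κα κβ d ε f hP d le_rfl
    rcases le_or_gt j d with hj | hj
    · exact g1 x y p q j hj
    · rw [g3 j hj]; simp
  -- pure forms with `ε = 1` vanish at `(p', 0)`
  have hodd : ∀ d f, Pure d 1 f → ∀ p' : κα → ℂ, eval (Sum.elim p' (0 : κβ → ℂ)) f = 0 := by
    intro d f hP p'
    rw [(h3 κα κβ d 1 f hP d le_rfl).2.1 p' 0]
    refine Finset.sum_eq_zero fun k _ => ?_
    have h := hhom d 1 f hP (2 * k + 1) 1 0 p' 0
    rw [one_smul, smul_zero, one_pow, one_mul, pow_succ, mul_zero, zero_mul] at h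
    exact h
  have hε : ∀ d ε (f : MvPolynomial (κα ⊕ κβ) ℂ), Pure d ε f → ε = 0 ∨ ε = 1 := by
    intro d ε f hP
    have := hP.le
    omega
  -- `(p, 0)` is in `Y`
  have hpY : Sum.elim p (0 : κβ → ℂ) ∈ Y := by
    refine (h4 κα κβ Y hA).1 _ fun d ε f hf hP => ?_
    rcases hε d ε f hP with rfl | rfl
    · rw [← (h3 κα κβ d 0 f hP d le_rfl).2.2.2.1 p q]
      exact hA0 d 0 f hf hP
    · exact hodd d f hP p
  have hpne : p ≠ 0 := by
    intro h
    rw [h] at hp0
    simp at hp0
  obtain ⟨U₁, U₂, hU1, hU2, hU⟩ := h5 κα κβ n Y hPM hA p hpne hpY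
  -- the subspace
  let K : Submodule ℂ (((κα → ℂ) × (κβ → ℂ)) × (ℂ × ℂ)) :=
    ⨅ (x : {x : ℕ × ℕ × MvPolynomial (κα ⊕ κβ) ℂ //
      x.2.2 ∈ vanishingIdeal ℂ Y ∧ Pure x.1 x.2.1 x.2.2}),
      LinearMap.ker (upb_E x.1.2.1 x.1.2.2 p q c)
  have hK : ∀ x, x ∈ K ↔ ∀ d ε f, f ∈ vanishingIdeal ℂ Y → Pure d ε f →
      c * dpol (bcomp ε f) (Sum.elim p q) (Sum.elim x.1.1 x.1.2) +
        eval (Sum.elim p q) (bcomp (2 + ε) f) * x.2.1 = 0 := by
    intro x
    simp only [K, Submodule.mem_iInf, LinearMap.mem_ker]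
    constructor
    · intro h d ε f hf hP
      exact h ⟨(d, ε, f), hf, hP⟩
    · rintro h ⟨⟨d, ε, f⟩, hf, hP⟩
      exact h d ε f hf hP
  -- the tangent space is in the image
  let B : (((κα → ℂ) × (κβ → ℂ)) × (ℂ × ℂ)) →ₗ[ℂ] (ℂ × ℂ) :=
    LinearMap.prod
      ((LinearMap.proj i₀).comp ((LinearMap.fst ℂ _ _).comp (LinearMap.fst ℂ _ _)))
      ((LinearMap.proj l₀).comp ((LinearMap.snd ℂ _ _).comp (LinearMap.fst ℂ _ _)))
  have hB : ∀ x, B x = (x.1.1 i₀, x.1.2 l₀) := fun x => rfl
  have htsp : tsp (Cl (ev Psi '' Y)) w ≤ (K ⊓ LinearMap.ker B).map (upb_L p q 0 c) := by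
    intro v hv
    obtain ⟨p', q', b', c', hp', hq', hvD⟩ := htan v hv
    rw [Submodule.mem_map]
    refine ⟨((p', q'), (b', c')), ?_, hvD.symm⟩
    rw [Submodule.mem_inf]
    constructor
    · rw [hK]
      intro d ε f hf hP
      obtain ⟨G, hG1, hG2⟩ := hG d ε f hf hP
      have hd0 : dpol G w v = 0 := hv G hG1
      have hd := hasDerivAt_Theta G p q 0 c p' q' b' c'
      rw [← hwT, ← hvD, hd0] at hd
      have hd' := upb_deriv d (fun k => bcomp (2 * k + ε) f) p p' q q' b' c c'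
        (by simpa using hA0 d ε f hf hP)
      have hd'' : HasDerivAt (fun τ : ℂ => eval (Theta (p + τ • p') (q + τ • q')
          (0 + τ * b') (c + τ * c')) G) (c ^ d * (c * dpol (bcomp (2 * 0 + ε) f)
            (Sum.elim p q) (Sum.elim p' q') +
          eval (Sum.elim p q) (bcomp (2 * 1 + ε) f) * b')) 0 := by
        refine hd'.congr_of_eventuallyEq (Filter.Eventually.of_forall fun τ => ?_)
        simp only
        rw [hG2]
        simp only [Pi.add_apply, Pi.smul_apply, hp', hq', hp0, hq0, smul_zero, add_zero,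
          one_pow, one_mul]
      have h := hd''.unique hd
      have h' := (mul_eq_zero.1 h).resolve_left (pow_ne_zero _ hc)
      rw [mul_zero, zero_add, mul_one] at h'
      exact h'
    · rw [LinearMap.mem_ker, hB]
      change (p' i₀, q' l₀) = 0
      rw [hp', hq']
      rfl
  -- upper bound for `K`
  have hKle : Module.finrank ℂ K ≤ n + 3 := by
    have e1 := upb_rank K (LinearMap.snd ℂ ((κα → ℂ) × (κβ → ℂ)) (ℂ × ℂ))
    have e1' : Module.finrank ℂ (K.map (LinearMap.snd ℂ ((κα → ℂ) × (κβ → ℂ)) (ℂ × ℂ))) ≤ 2 := by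
      refine (Submodule.finrank_le _).trans ?_
      rw [Module.finrank_prod, Module.finrank_self]
    have e2 := upb_rank (K ⊓ LinearMap.ker (LinearMap.snd ℂ ((κα → ℂ) × (κβ → ℂ)) (ℂ × ℂ)))
      ((LinearMap.fst ℂ (κα → ℂ) (κβ → ℂ)).comp
        (LinearMap.fst ℂ ((κα → ℂ) × (κβ → ℂ)) (ℂ × ℂ)))
    have e2' : Module.finrank ℂ ((K ⊓ LinearMap.ker
        (LinearMap.snd ℂ ((κα → ℂ) × (κβ → ℂ)) (ℂ × ℂ))).map
        ((LinearMap.fst ℂ (κα → ℂ) (κβ → ℂ)).comp
        (LinearMap.fst ℂ ((κα → ℂ) × (κβ → ℂ)) (ℂ × ℂ)))) ≤ Module.finrank ℂ U₁ := by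
      apply Submodule.finrank_mono
      rintro _ ⟨⟨⟨p', q'⟩, ⟨b', c'⟩⟩, ⟨hx1, hx2⟩, rfl⟩
      change p' ∈ U₁
      have hb' : b' = 0 := by
        have : ((b', c') : ℂ × ℂ) = 0 := hx2
        exact congrArg Prod.fst this
      rw [hU1]
      refine (h4 κα κβ Y hA).2 _ _ fun d ε f hf hP => ?_
      rcases hε d ε f hP with rfl | rfl
      · have h := (hK _).1 hx1 d 0 f hf hP
        simp only [hb', mul_zero, add_zero] at h
        have h' := (mul_eq_zero.1 h).resolve_left hc
        rw [← h']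
        refine upb_dpol_eq _ _ _ _ _ _ fun τ => ?_
        rw [upb_elim_line, upb_elim_line, smul_zero, add_zero,
          (h3 κα κβ d 0 f hP d le_rfl).2.2.2.1]
      · refine upb_dpol_zero _ _ _ fun τ => ?_
        rw [upb_elim_line, smul_zero, add_zero]
        exact hodd d f hP _
    have e3 : Module.finrank ℂ ((K ⊓ LinearMap.ker
        (LinearMap.snd ℂ ((κα → ℂ) × (κβ → ℂ)) (ℂ × ℂ))) ⊓ LinearMap.ker
        ((LinearMap.fst ℂ (κα → ℂ) (κβ → ℂ)).comp
        (LinearMap.fst ℂ ((κα → ℂ) × (κβ → ℂ)) (ℂ × ℂ))) :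
          Submodule ℂ (((κα → ℂ) × (κβ → ℂ)) × (ℂ × ℂ))) ≤ Module.finrank ℂ U₂ := by
      have e4 : (K ⊓ LinearMap.ker
        (LinearMap.snd ℂ ((κα → ℂ) × (κβ → ℂ)) (ℂ × ℂ))) ⊓ LinearMap.ker
        ((LinearMap.fst ℂ (κα → ℂ) (κβ → ℂ)).comp
        (LinearMap.fst ℂ ((κα → ℂ) × (κβ → ℂ)) (ℂ × ℂ))) ≤
          U₂.map ((LinearMap.inl ℂ ((κα → ℂ) × (κβ → ℂ)) (ℂ × ℂ)).comp
            (LinearMap.inr ℂ (κα → ℂ) (κβ → ℂ))) := by
        rintro ⟨⟨p', q'⟩, ⟨b', c'⟩⟩ ⟨⟨hx1, hx2⟩, hx3⟩
        have hp' : p' = 0 := hx3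
        have hbc : ((b', c') : ℂ × ℂ) = 0 := hx2
        have hb' : b' = 0 := congrArg Prod.fst hbc
        have hc' : c' = 0 := congrArg Prod.snd hbc
        subst hp' hb' hc'
        refine ⟨q', ?_, rfl⟩
        change q' ∈ U₂
        rw [hU2]
        refine (h4 κα κβ Y hA).2 _ _ fun d ε f hf hP => ?_
        rcases hε d ε f hP with rfl | rfl
        · -- even
          have hd : HasDerivAt (fun τ : ℂ => ∑ k ∈ Finset.range (d + 1),
              τ ^ (2 * k) * eval (Sum.elim p q') (bcomp (2 * k + 0) f)) 0 0 := by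
            have hterm : ∀ k ∈ Finset.range (d + 1), HasDerivAt (fun τ : ℂ =>
                τ ^ (2 * k) * eval (Sum.elim p q') (bcomp (2 * k + 0) f)) 0 0 := by
              intro k _
              have h := (hasDerivAt_pow (2 * k) (0 : ℂ)).mul_const
                (eval (Sum.elim p q') (bcomp (2 * k + 0) f))
              refine h.congr_deriv ?_
              rcases k with _ | k
              · simp
              · have : 2 * (k + 1) - 1 ≠ 0 := by omega
                rw [zero_pow this, mul_zero, zero_mul]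
            have h := HasDerivAt.fun_sum hterm
            simpa using h
          refine (upb_line f (Sum.elim p 0) (Sum.elim 0 q')).unique ?_
          refine hd.congr_of_eventuallyEq (Filter.Eventually.of_forall fun τ => ?_)
          simp only
          rw [upb_elim_line, smul_zero, add_zero, zero_add,
            (h3 κα κβ d 0 f hP d le_rfl).2.1 p (τ • q')]
          refine Finset.sum_congr rfl fun k _ => ?_
          have h := hhom d 0 f hP (2 * k + 0) 1 τ p q'
          rw [one_smul, one_pow, one_mul, add_zero] at h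
          rw [add_zero]
          exact h
        · -- odd
          have h := (hK _).1 hx1 d 1 f hf hP
          simp only [mul_zero, add_zero] at h
          have h' := (mul_eq_zero.1 h).resolve_left hc
          have hbc5 := (h3 κα κβ d 1 f hP d le_rfl).2.2.2.2
          rw [← h']
          have hlin : HasDerivAt (fun τ : ℂ => eval (Sum.elim p q + τ • Sum.elim (0 : κα → ℂ) q')
              (bcomp 1 f)) (dpol f (Sum.elim p 0) (Sum.elim 0 q')) 0 := by
            have h5 : ∀ τ : ℂ, eval (Sum.elim p q + τ • Sum.elim (0 : κα → ℂ) q') (bcomp 1 f) =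
                dpol f (Sum.elim p 0) (Sum.elim 0 q) +
                  τ * dpol f (Sum.elim p 0) (Sum.elim 0 q') := by
              intro τ
              rw [upb_elim_line, smul_zero, add_zero, hbc5]
              have h6 : Sum.elim (0 : κα → ℂ) (q + τ • q') =
                  Sum.elim (0 : κα → ℂ) q + τ • Sum.elim (0 : κα → ℂ) q' := by
                rw [upb_elim_line, smul_zero, add_zero]
              rw [h6, dpol_add_right, dpol_smul_right]
            have h6 := ((hasDerivAt_id (0 : ℂ)).mul_const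
              (dpol f (Sum.elim p 0) (Sum.elim 0 q'))).const_add
              (dpol f (Sum.elim p 0) (Sum.elim 0 q))
            rw [one_mul] at h6
            refine h6.congr_of_eventuallyEq (Filter.Eventually.of_forall fun τ => ?_)
            exact h5 τ
          exact hlin.unique (upb_line (bcomp 1 f) (Sum.elim p q) (Sum.elim 0 q'))
      exact (Submodule.finrank_mono e4).trans (Submodule.finrank_map_le _ _)
    omega
  -- `B` is surjective on `K`
  have hsub : (K.map B) = ⊤ := by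
    rw [eq_top_iff]
    rintro ⟨s, t⟩ -
    rw [Submodule.mem_map]
    refine ⟨((s • p, t • q), (0, 0)), ?_, ?_⟩
    · rw [hK]
      intro d ε f hf hP
      simp only [mul_zero, add_zero]
      have h : dpol (bcomp ε f) (Sum.elim p q) (Sum.elim (s • p) (t • q)) = 0 := by
        refine upb_dpol_zero _ _ _ fun τ => ?_
        have h1 : p + τ • s • p = (1 + τ * s) • p := by
          rw [add_smul, one_smul, mul_smul]
        have h2 : q + τ • t • q = (1 + τ * t) • q := by
          rw [add_smul, one_smul, mul_smul]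
        rw [upb_elim_line, h1, h2, hhom d ε f hP, hA0 d ε f hf hP, mul_zero]
      rw [h, mul_zero]
    · rw [hB]
      simp [hp0, hq0]
  have e5 := upb_rank K B
  rw [hsub, finrank_top, Module.finrank_prod, Module.finrank_self] at e5
  have e6 := Submodule.finrank_mono htsp
  have e7 := Submodule.finrank_map_le (upb_L p q 0 c) (K ⊓ LinearMap.ker B)
  omega

end Upb

end Pool.Agent.Helper87.TC
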